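import Pool.Agent.Helper64.RF.GoalsD

/-!
# Project RF, packet D5-DIAM: the final form of the local Myers theorem
-/

open Quaternion

namespace Pool.Agent.Helper8.RF

open Pool.Agent.Helper64.RF

theorem continuous_vel {c : ℝ → ℍ[ℝ]} (hc : C1 c) : Continuous (vel c) := by
  have h1 : Continuous (fun t => (c t)⁻¹) := hc.1.continuous.inv₀ hc.2
  have h2 : Continuous (deriv c) := hc.1.continuous_deriv le_rfl
  have h3 : Continuous (fun t => imL ((c t)⁻¹ * deriv c t)) := imL.continuous.comp (h1.mul h2)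
  exact h3

theorem continuous_comp {F : Type*} [NormedAddCommGroup F] [NormedSpace ℝ F] {f : ℍ[ℝ] → F} (hf : SS f)
    {c : ℝ → ℍ[ℝ]} (hc : C1 c) : Continuous (fun t => f (c t)) := by
  rw [continuous_iff_continuousAt]
  intro t
  exact ContinuousAt.comp (f := c) (g := f) (hf.continuousAt (hc.2 t)) hc.1.continuous.continuousAt

theorem continuous_density {g : ℍ[ℝ] → W →L[ℝ] W →L[ℝ] ℝ} (hg : Met g) {c : ℝ → ℍ[ℝ]} (hc : C1 c) :
    Continuous (fun t => g (c t) (vel c t) (vel c t)) :=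
  ((continuous_comp hg.smooth hc).clm_apply (continuous_vel hc)).clm_apply (continuous_vel hc)

theorem continuous_Ed {F : Type*} [NormedAddCommGroup F] [NormedSpace ℝ F] {f : ℍ[ℝ] → F} (hf : SS f)
    {c : ℝ → ℍ[ℝ]} (hc : C1 c) : Continuous (fun t => Ed (vel c t) f (c t)) := by
  have h1 : Continuous (fun t => fderiv ℝ f (c t)) := by
    rw [continuous_iff_continuousAt]
    intro t
    have h2 : ContDiffAt ℝ (⊤ : ℕ∞) (fderiv ℝ f) (c t) := (hf.2 (c t) (hc.2 t)).fderiv_right (by simp)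
    exact ContinuousAt.comp (f := c) (g := fderiv ℝ f) h2.continuousAt hc.1.continuous.continuousAt
  have h3 : Continuous (fun t => iotL (vel c t)) := iotL.continuous.comp (continuous_vel hc)
  have h4 : Continuous (fun t => c t * iotL (vel c t)) := hc.1.continuous.mul h3
  exact h1.clm_apply h4

/-- fundamental theorem of calculus along a curve -/
theorem ftc_curve {f : ℍ[ℝ] → ℝ} (hf : SS f) {c : ℝ → ℍ[ℝ]} (hc : C1 c) :
    ∫ t in (0:ℝ)..1, Ed (vel c t) f (c t) = f (c 1) - f (c 0) := by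
  apply intervalIntegral.integral_eq_sub_of_hasDerivAt (f := fun t => f (c t))
  · intro t _
    have h1 : HasDerivAt c (deriv c t) t := (hc.1.differentiable (by simp) t).hasDerivAt
    exact hf.chain h1 (hc.2 t)
  · exact (continuous_Ed hf hc).intervalIntegrable _ _

theorem En_nonneg {g : ℍ[ℝ] → W →L[ℝ] W →L[ℝ] ℝ} (hg : Met g) {c : ℝ → ℍ[ℝ]} (hc : C1 c) : 0 ≤ En g c := by
  apply intervalIntegral.integral_nonneg (by norm_num)
  intro t _
  by_cases h : vel c t = 0
  · rw [h]; simp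
  · exact (hg.pos _ (hc.2 t) _ h).le

theorem int_aux (F : ℝ → ℝ) (hF : Continuous F) (K r : ℝ) :
    ∫ t in (0:ℝ)..1, K * ((F t * r⁻¹ + r) / 2) = K * (((∫ t in (0:ℝ)..1, F t) * r⁻¹ + r) / 2) := by
  have h1 : IntervalIntegrable (fun t => F t * r⁻¹) MeasureTheory.volume 0 1 :=
    (hF.mul continuous_const).intervalIntegrable _ _
  have h2 : IntervalIntegrable (fun _ : ℝ => r) MeasureTheory.volume 0 1 :=
    continuous_const.intervalIntegrable _ _
  rw [intervalIntegral.integral_const_mul, intervalIntegral.integral_div,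
    intervalIntegral.integral_add h1 h2, intervalIntegral.integral_mul_const]
  simp

/-- Lipschitz bound along a curve with energy at most `r ^ 2` -/
theorem abs_sub_le_of_En {g : ℍ[ℝ] → W →L[ℝ] W →L[ℝ] ℝ} (hg : Met g) {f : ℍ[ℝ] → ℝ} (hf : SS f) {K r : ℝ}
    (hK : 0 ≤ K) (hr : 0 < r)
    (hb : ∀ x, x ≠ 0 → ∀ v, |Ed v f x| ≤ K * Real.sqrt (g x v v)) {c : ℝ → ℍ[ℝ]} (hc : C1 c)
    (hE : En g c ≤ r ^ 2) : |f (c 1) - f (c 0)| ≤ K * r := by
  have hd := continuous_density hg hc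
  have h0 : ∀ t, 0 ≤ g (c t) (vel c t) (vel c t) := by
    intro t
    by_cases h : vel c t = 0
    · rw [h]; simp
    · exact (hg.pos _ (hc.2 t) _ h).le
  have hs : ∀ a : ℝ, 0 ≤ a → Real.sqrt a ≤ (a * r⁻¹ + r) / 2 := by
    intro a ha
    have h1 : 0 ≤ (Real.sqrt a - r) ^ 2 := sq_nonneg _
    have h2 : Real.sqrt a ^ 2 = a := Real.sq_sqrt ha
    have h3 : 2 * Real.sqrt a * r ≤ a + r ^ 2 := by nlinarith
    rw [le_div_iff₀ (by norm_num : (0:ℝ) < 2)]
    have h4 : Real.sqrt a * 2 = (2 * Real.sqrt a * r) * r⁻¹ := by field_simp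
    have h5 : a * r⁻¹ + r = (a + r ^ 2) * r⁻¹ := by field_simp
    rw [h4, h5]
    exact mul_le_mul_of_nonneg_right h3 (inv_nonneg.mpr hr.le)
  have hp : ∀ t, |Ed (vel c t) f (c t)| ≤ K * ((g (c t) (vel c t) (vel c t) * r⁻¹ + r) / 2) := by
    intro t
    exact (hb _ (hc.2 t) _).trans (mul_le_mul_of_nonneg_left (hs _ (h0 t)) hK)
  rw [← ftc_curve hf hc]
  have h6 : |∫ t in (0:ℝ)..1, Ed (vel c t) f (c t)| ≤
      ∫ t in (0:ℝ)..1, K * ((g (c t) (vel c t) (vel c t) * r⁻¹ + r) / 2) := by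
    have h7 : Continuous (fun t => K * ((g (c t) (vel c t) (vel c t) * r⁻¹ + r) / 2)) :=
      continuous_const.mul (((hd.mul continuous_const).add continuous_const).div_const 2)
    calc |∫ t in (0:ℝ)..1, Ed (vel c t) f (c t)| ≤ ∫ t in (0:ℝ)..1, |Ed (vel c t) f (c t)| :=
          intervalIntegral.abs_integral_le_integral_abs (by norm_num)
      _ ≤ _ := by
          apply intervalIntegral.integral_mono_on (by norm_num)
            ((continuous_Ed hf hc).abs.intervalIntegrable _ _) (h7.intervalIntegrable _ _)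
          intro t _
          exact hp t
  refine h6.trans ?_
  have h8 : ∫ t in (0:ℝ)..1, K * ((g (c t) (vel c t) (vel c t) * r⁻¹ + r) / 2) =
      K * ((En g c * r⁻¹ + r) / 2) := by
    rw [int_aux _ hd]
    rfl
  rw [h8]
  apply mul_le_mul_of_nonneg_left _ hK
  have h9 : En g c * r⁻¹ ≤ r := by
    calc En g c * r⁻¹ ≤ r ^ 2 * r⁻¹ := mul_le_mul_of_nonneg_right hE (inv_nonneg.mpr hr.le)
      _ = r := by field_simp
  linarith

theorem diam (my : MY) : DIAM := by
  intro g G hg hLC s Q η p hs hQ hη0 hη hp hsp hEd hRic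
  have hsQ : 0 < Real.sqrt Q := Real.sqrt_pos.mpr hQ
  have hsQ2 : Real.sqrt Q ^ 2 = Q := Real.sq_sqrt hQ.le
  have hr : 0 < 11 / Real.sqrt Q := by positivity
  have hr2 : (11 / Real.sqrt Q) ^ 2 = 121 / Q := by
    rw [div_pow, hsQ2]; norm_num
  have hKr : η * (Q * Real.sqrt Q) * (11 / Real.sqrt Q) = 11 * η * Q := by
    field_simp
  have hlip : ∀ c, C1 c → En g c ≤ 121 / Q → |s (c 1) - s (c 0)| ≤ 11 * η * Q := by
    intro c hc hE
    rw [← hKr]
    exact abs_sub_le_of_En hg hs (by positivity) hr hEd hc (by rw [hr2]; exact hE)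
  have hpi : 3 * Real.pi ^ 2 / (Q / 4) < 121 / Q := by
    rw [div_lt_div_iff₀ (by positivity) hQ]
    have h1 : Real.pi < 3.15 := Real.pi_lt_d2
    have h2 : Real.pi ^ 2 < 3.15 ^ 2 := by
      have := Real.pi_pos
      gcongr
    nlinarith
  have hstep : ∀ y, y ≠ 0 → (1 - 11 * η) * Q ≤ s y := by
    intro y hy
    obtain ⟨c, hc, hc0, hc1, hcE⟩ := my g G hg hLC (Q / 4) (121 / Q) p (by positivity) hpi hp (by
      intro c hc hc0 hcE
      apply hRic _ (hc.2 1)
      have h1 := hlip c hc hcE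
      rw [hc0, hsp] at h1
      have h2 := (abs_le.mp h1).1
      nlinarith) y hy
    have h1 := hlip c hc hcE.le
    rw [hc0, hc1, hsp] at h1
    have h2 := (abs_le.mp h1).1
    linarith
  refine ⟨hstep, ?_⟩
  intro x y hx hy
  exact my g G hg hLC (Q / 4) (121 / Q) x (by positivity) hpi hx (by
    intro c hc _ _
    apply hRic _ (hc.2 1)
    have h1 := hstep _ (hc.2 1)
    nlinarith) y hy

end Pool.Agent.Helper8.RF
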