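import Pool.Agent.Helper47.RF.CoreGoals

/-!
# Project RF, packet C5: maximum of a smooth function on `S³`

`second_le`: at a local maximum of a function that is `C²` at the point, the second derivative is non-positive.
-/

namespace Pool.Agent.Helper47.RF

open Finset

/-- second derivative test in any real normed space -/
theorem second_le {W : Type*} [NormedAddCommGroup W] [NormedSpace ℝ W] {f : W → ℝ} {x : W}
    (hf : ContDiffAt ℝ 2 f x) (hmax : IsLocalMax f x) (u : W) :
    fderiv ℝ (fderiv ℝ f) x u u ≤ 0 := by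
  by_contra hcon
  rw [not_le] at hcon
  have hc0 : Filter.Tendsto (fun s : ℝ => x + s • u) (nhds 0) (nhds x) := by
    have h1 : Continuous (fun s : ℝ => x + s • u) := by fun_prop
    have h2 := h1.tendsto 0
    simpa using h2
  have hline : ∀ s : ℝ, HasDerivAt (fun s : ℝ => x + s • u) u s := by
    intro s
    have h1 : HasDerivAt (fun s : ℝ => s • u) ((1 : ℝ) • u) s := (hasDerivAt_id s).smul_const u
    rw [one_smul] at h1
    exact h1.const_add x
  have hev : ∀ᶠ s in nhds (0 : ℝ), HasDerivAt (fun s : ℝ => f (x + s • u)) (fderiv ℝ f (x + s • u) u) s := by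
    have h1 : ∀ᶠ y in nhds x, DifferentiableAt ℝ f y := by
      have h2 := hf.eventually (by simp)
      filter_upwards [h2] with y hy
      exact hy.differentiableAt (by simp)
    filter_upwards [hc0.eventually h1] with s hs
    exact hs.hasFDerivAt.comp_hasDerivAt s (hline s)
  have hde : deriv (fun s : ℝ => f (x + s • u)) =ᶠ[nhds 0] fun s => fderiv ℝ f (x + s • u) u := by
    filter_upwards [hev] with s hs
    exact hs.deriv
  have hD2 : DifferentiableAt ℝ (fderiv ℝ f) x := by
    have h1 : ContDiffAt ℝ 1 (fderiv ℝ f) x := hf.fderiv_right (m := 1) (by norm_num)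
    exact h1.differentiableAt (by simp)
  have hd2 : HasDerivAt (fun s : ℝ => fderiv ℝ f (x + s • u) u) (fderiv ℝ (fderiv ℝ f) x u u) 0 := by
    have h0 : HasFDerivAt (fderiv ℝ f) (fderiv ℝ (fderiv ℝ f) x) (x + (0 : ℝ) • u) := by
      simpa using hD2.hasFDerivAt
    have h1 : HasDerivAt (fun s : ℝ => fderiv ℝ f (x + s • u)) (fderiv ℝ (fderiv ℝ f) x u) 0 :=
      h0.comp_hasDerivAt (0 : ℝ) (hline 0)
    have h2 := h1.clm_apply (hasDerivAt_const (0 : ℝ) u)
    simpa using h2
  have hdd : deriv (deriv (fun s : ℝ => f (x + s • u))) 0 = fderiv ℝ (fderiv ℝ f) x u u := by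
    rw [hde.deriv_eq]
    exact hd2.deriv
  have hfd0 : fderiv ℝ f x = 0 := hmax.fderiv_eq_zero
  have hd0 : deriv (fun s : ℝ => f (x + s • u)) 0 = 0 := by
    have h1 := hde.self_of_nhds
    rw [h1]
    simp [hfd0]
  have hcont : ContinuousAt (fun s : ℝ => f (x + s • u)) 0 := hev.self_of_nhds.continuousAt
  have hmin : IsLocalMin (fun s : ℝ => f (x + s • u)) 0 :=
    isLocalMin_of_deriv_deriv_pos (by rw [hdd]; exact hcon) hd0 hcont
  have hconst : (fun s : ℝ => f (x + s • u)) =ᶠ[nhds 0] fun _ => f x := by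
    have h1 := hc0.eventually hmax
    filter_upwards [hmin, h1] with s hs1 hs2
    have h3 : f (x + (0 : ℝ) • u) ≤ f (x + s • u) := hs1
    rw [zero_smul, add_zero] at h3
    exact le_antisymm hs2 h3
  have h4 : deriv (fun s : ℝ => f (x + s • u)) =ᶠ[nhds 0] fun _ => 0 := by
    have h5 := hconst.deriv
    filter_upwards [h5] with s hs
    rw [hs]
    simp
  have h6 : deriv (deriv (fun s : ℝ => f (x + s • u))) 0 = 0 := by
    rw [h4.deriv_eq]
    simp
  rw [hdd] at h6
  exact absurd h6 hcon.ne'

/-- second word derivative in terms of the second derivative -/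
theorem E_E_eq {f : HH → ℝ} {x : HH} (hf : ContDiffAt ℝ 2 f x) (i j : Fin 3) :
    E i (E j f) x = fderiv ℝ (fderiv ℝ f) x (x * qe i) (x * qe j) + fderiv ℝ f x (x * qe i * qe j) := by
  have hD2 : DifferentiableAt ℝ (fderiv ℝ f) x := by
    have h1 : ContDiffAt ℝ 1 (fderiv ℝ f) x := hf.fderiv_right (m := 1) (by norm_num)
    exact h1.differentiableAt (by simp)
  have h1 : HasFDerivAt (fun y : HH => y * qe j) ((ContinuousLinearMap.mul ℝ HH).flip (qe j)) x :=
    ((ContinuousLinearMap.mul ℝ HH).flip (qe j)).hasFDerivAt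
  have h2 := (hD2.hasFDerivAt.clm_apply h1).fderiv
  have h3 : E i (E j f) x = fderiv ℝ (fun y => fderiv ℝ f y (y * qe j)) x (x * qe i) := rfl
  rw [h3, h2]
  simp [add_comm]

theorem goal_C5 : Goal_C5 := by
  refine ⟨?_, ?_⟩
  · intro f hf
    have hK : IsCompact (Metric.sphere (0 : HH) 1) := isCompact_sphere 0 1
    have hne : (Metric.sphere (0 : HH) 1).Nonempty := ⟨1, by simp⟩
    have hcont : ContinuousOn f (Metric.sphere (0 : HH) 1) := by
      refine hf.cd.continuousOn.mono ?_
      intro y hy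
      have h1 : ‖y‖ = 1 := by simpa using hy
      intro h2
      have h3 : y = 0 := h2
      rw [h3, norm_zero] at h1
      exact zero_ne_one h1
    obtain ⟨x, hx, hmax⟩ := hK.exists_isMaxOn hne hcont
    refine ⟨x, by simpa using hx, ?_⟩
    intro y hy
    have hny : 0 < ‖y‖ := norm_pos_iff.mpr hy
    have h1 : f (‖y‖⁻¹ • y) = f y := hf.hom _ _ (inv_pos.mpr hny)
    rw [← h1]
    apply hmax
    simp [norm_smul, hny.ne']
  · intro f x hf hx hmax
    have hopen : ({0}ᶜ : Set HH) ∈ nhds x := isOpen_compl_singleton.mem_nhds hx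
    have hlm : IsLocalMax f x := by
      filter_upwards [hopen] with y hy
      exact hmax y hy
    have hcd : ContDiffAt ℝ 2 f x := (hf.cd.contDiffAt hopen).of_le (WithTop.coe_le_coe.mpr (le_top : (2 : ℕ∞) ≤ ⊤))
    have hfd0 : fderiv ℝ f x = 0 := hlm.fderiv_eq_zero
    refine ⟨fun i => by simp [E, hfd0], ?_⟩
    intro v
    have h1 : ∀ i j, E i (E j f) x = fderiv ℝ (fderiv ℝ f) x (x * qe i) (x * qe j) := by
      intro i j
      rw [E_E_eq hcd, hfd0]
      simp
    have h2 := second_le hcd hlm (∑ i, v i • (x * qe i))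
    have h3 : fderiv ℝ (fderiv ℝ f) x (∑ i, v i • (x * qe i)) (∑ i, v i • (x * qe i)) =
        ∑ i, ∑ j, v i * v j * E i (E j f) x := by
      simp only [map_sum, map_smul, _root_.sum_apply, _root_.smul_apply, h1,
        smul_eq_mul, Finset.mul_sum]
      rw [Finset.sum_comm]
      refine Finset.sum_congr rfl fun i _ => Finset.sum_congr rfl fun j _ => ?_
      ring
    rw [← h3]
    exact h2

end Pool.Agent.Helper47.RF
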