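import Pool.Agent.Helper73.RF.GoalsA

/-!
# Project RF, packet VIN: `V`-invariant functions
-/

set_option autoImplicit false

open Finset

namespace Pool.Agent.Helper8.RF

open Pool.Agent.Helper73.RF

variable {T : ℝ} {F : FBD T}

theorem V_H (hF : F.Full) (k a : Fin 3) (f : F.B) :
    F.V k (F.H a f) = F.H a (F.V k f) + ∑ b, eps k a b • F.H b f := by
  have h := hF.VH k a f
  linear_combination h

/-- the families that are rotated by the vertical derivations -/
def Rot2 (N : Fin 3 → Fin 3 → F.B) : Prop :=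
  ∀ k i j, F.V k (N i j) = ∑ a, (eps k i a • N a j + eps k j a • N i a)

theorem rot_trace {N : Fin 3 → Fin 3 → F.B} (h : Rot2 N) : F.VI (∑ i, N i i) := by
  intro k
  rw [map_sum]
  simp only [h k]
  fin_cases k <;> simp [Fin.sum_univ_three, eps]

theorem rot_sq {N : Fin 3 → Fin 3 → F.B} (h : Rot2 N) : F.VI (∑ i, ∑ j, N i j ^ 2) := by
  intro k
  simp only [map_sum, pow_two, Derivation.leibniz, smul_eq_mul, h k]
  fin_cases k <;> simp [Fin.sum_univ_three, eps] <;> ring

theorem V_HN (hF : F.Full) {N : Fin 3 → Fin 3 → F.B} (h : Rot2 N) (k c i j : Fin 3) :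
    F.V k (F.H c (N i j)) = (∑ a, (eps k i a • F.H c (N a j) + eps k j a • F.H c (N i a)))
      + ∑ b, eps k c b • F.H b (N i j) := by
  rw [V_H hF, h k]
  simp only [map_sum, map_add, Derivation.map_smul]

theorem rot_dsq (hF : F.Full) {N : Fin 3 → Fin 3 → F.B} (h : Rot2 N) :
    F.VI (∑ c, ∑ i, ∑ j, F.H c (N i j) ^ 2) := by
  intro k
  simp only [map_sum, pow_two, Derivation.leibniz, smul_eq_mul, V_HN hF h k]
  fin_cases k <;> simp [Fin.sum_univ_three, eps] <;> ring

theorem V_Hf (hF : F.Full) {f : F.B} (hf : F.VI f) (k a : Fin 3) :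
    F.V k (F.H a f) = ∑ b, eps k a b • F.H b f := by
  rw [V_H hF, hf k, map_zero, zero_add]

theorem V_HHf (hF : F.Full) {f : F.B} (hf : F.VI f) (k a b : Fin 3) :
    F.V k (F.H a (F.H b f)) = ∑ c, eps k b c • F.H a (F.H c f) + ∑ c, eps k a c • F.H c (F.H b f) := by
  rw [V_H hF, V_Hf hF hf]
  simp only [map_sum, Derivation.map_smul]

theorem vin : VinStmt := by
  intro T F hF
  have hM : Rot2 F.M := fun k i j => hF.VM k i j
  have hs : F.VI F.s := rot_trace hM
  have hn2 : F.VI F.n2 := rot_sq hM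
  have hsmul : ∀ (c : ℝ) f, F.VI f → F.VI (c • f) := by
    intro c f hf k
    rw [Derivation.map_smul, hf k, smul_zero]
  have hsub : ∀ f g, F.VI f → F.VI g → F.VI (f - g) := by
    intro f g hf hg k
    rw [map_sub, hf k, hg k, sub_zero]
  have hmul : ∀ f g, F.VI f → F.VI g → F.VI (f * g) := by
    intro f g hf hg k
    rw [Derivation.leibniz, hf k, hg k, smul_zero, smul_zero, add_zero]
  have hM0 : Rot2 F.M0 := by
    intro k i j
    have h1 : F.V k (F.M0 i j) = F.V k (F.M i j) := by
      unfold FBD.M0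
      rw [map_sub]
      split_ifs
      · rw [Derivation.map_smul, hs k, smul_zero, sub_zero]
      · rw [map_zero, sub_zero]
    rw [h1, hM k i j]
    unfold FBD.M0
    fin_cases k <;> fin_cases i <;> fin_cases j <;> simp [Fin.sum_univ_three, eps] <;> ring
  refine ⟨hs, hn2, ?_, hF.tt_V, rot_dsq hF hM0, rot_dsq hF hM, ?_, ?_, hsmul, ?_, ?_, ?_⟩
  · have h1 : F.VI (F.s ^ 2) := by
      rw [pow_two]
      exact hmul _ _ hs hs
    exact hsub _ _ hn2 (hsmul _ _ h1)
  · intro c k
    exact Derivation.map_algebraMap _ _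
  · intro f g hf hg
    refine ⟨?_, hsub f g hf hg, hmul f g hf hg, ?_⟩
    · intro k
      rw [map_add, hf k, hg k, add_zero]
    · intro k
      unfold FBD.gg
      simp only [map_sum, Derivation.leibniz, smul_eq_mul, V_Hf hF hf, V_Hf hF hg]
      fin_cases k <;> simp [Fin.sum_univ_three, eps] <;> ring
  · intro f hf
    refine ⟨?_, ?_, ?_⟩
    · intro k
      unfold FBD.Lap
      simp only [map_sum, V_HHf hF hf]
      fin_cases k <;> simp [Fin.sum_univ_three, eps]
    · intro k
      rw [← hF.DV, hf k, map_zero]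
    · intro k
      unfold FBD.h2
      simp only [map_sum, pow_two, Derivation.leibniz, smul_eq_mul, V_HHf hF hf]
      fin_cases k <;> simp [Fin.sum_univ_three, eps] <;> ring
  · intro f hf a b
    have h1 := hF.HH a b f
    simp only [hf _, mul_zero, smul_zero, Finset.sum_const_zero] at h1
    exact sub_eq_zero.mp h1
  · intro f hf k a
    exact V_Hf hF hf k a

end Pool.Agent.Helper8.RF
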