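import Pool.Agent.Helper73.RF.GoalsF

/-!
# Project RF, packet VLB: lower volume bound
-/

set_option autoImplicit false

open Finset Pool.Agent.Helper47.RF Pool.Agent.Helper73.RF

namespace Pool.Agent.Helper8.RF

theorem eps_eq (i j k : Fin 3) : Pool.Agent.Helper73.RF.eps i j k = Pool.Agent.Helper47.RF.eps i j k := by
  fin_cases i <;> fin_cases j <;> fin_cases k <;>
    norm_num [Pool.Agent.Helper73.RF.eps, Pool.Agent.Helper47.RF.eps]

theorem lin_bd {K : ℝ} (M : Fin 3 → Fin 3 → ℝ) (hM : ∀ i a, |M i a| ≤ K) (v : Fin 3 → ℝ) :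
    ∑ a, (∑ i, M i a * v i) ^ 2 ≤ 9 * K ^ 2 * ∑ i, v i ^ 2 := by
  have h0 : 0 ≤ ∑ i, v i ^ 2 := Finset.sum_nonneg fun i _ => sq_nonneg _
  have h1 : ∀ i a, M i a ^ 2 ≤ K ^ 2 := by
    intro i a
    rw [← sq_abs]
    exact pow_le_pow_left₀ (abs_nonneg _) (hM i a) 2
  have h2 : ∀ a, (∑ i, M i a * v i) ^ 2 ≤ 3 * K ^ 2 * ∑ i, v i ^ 2 := by
    intro a
    refine (Finset.sum_mul_sq_le_sq_mul_sq _ _ _).trans (mul_le_mul_of_nonneg_right ?_ h0)
    rw [Fin.sum_univ_three]
    linarith [h1 0 a, h1 1 a, h1 2 a]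
  rw [Fin.sum_univ_three]
  linarith [h2 0, h2 1, h2 2]

theorem ip_gOf (θ : MF) (x : HH) (v : Fin 3 → ℝ) : ip (gOf θ) x v v = ∑ a, (∑ i, θ x i a * v i) ^ 2 := by
  simp only [ip, gOf, Matrix.mul_apply, Matrix.transpose_apply, Fin.sum_univ_three]
  ring

theorem bounds (c4 : Goal_C4) {A θ : MF} (hF : Frm A θ) :
    ∃ c C : ℝ, 0 < c ∧ 0 < C ∧ ∀ x v, c * ∑ i, v i ^ 2 ≤ ip (gOf θ) x v v ∧
      ip (gOf θ) x v v ≤ C * ∑ i, v i ^ 2 := by
  have h1 : ∀ i a, ∃ C, ∀ x, |θ x i a| ≤ C := by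
    intro i a
    obtain ⟨C, hC⟩ := c4.1 _ (hF.smt i a)
    exact ⟨_, hC⟩
  have h2 : ∀ a i, ∃ C, ∀ x, |A x a i| ≤ C := by
    intro a i
    obtain ⟨C, hC⟩ := c4.1 _ (hF.smA a i)
    exact ⟨_, hC⟩
  choose Ct hCt using h1
  choose Ca hCa using h2
  have hsum : ∀ (D : Fin 3 → Fin 3 → ℝ) i a, D i a ≤ ∑ i, ∑ a, |D i a| := by
    intro D i a
    refine (le_abs_self _).trans ?_
    refine (Finset.single_le_sum (f := fun a => |D i a|) (fun a _ => abs_nonneg _) (Finset.mem_univ a)).trans ?_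
    exact Finset.single_le_sum (f := fun i => ∑ a, |D i a|)
      (fun i _ => Finset.sum_nonneg fun a _ => abs_nonneg _) (Finset.mem_univ i)
  obtain ⟨K, hK, hK1, hK2⟩ : ∃ K : ℝ, 0 < K ∧ (∀ x i a, |θ x i a| ≤ K) ∧ ∀ x a i, |A x a i| ≤ K := by
    refine ⟨1 + (∑ i, ∑ a, |Ct i a|) + ∑ a, ∑ i, |Ca a i|, ?_, ?_, ?_⟩
    · positivity
    · intro x i a
      have h3 := (hCt i a x).trans (hsum Ct i a)
      have h4 : 0 ≤ ∑ a, ∑ i, |Ca a i| := by positivity
      linarith
    · intro x a i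
      have h3 := (hCa a i x).trans (hsum Ca a i)
      have h4 : 0 ≤ ∑ a, ∑ i, |Ct a i| := by positivity
      linarith
  refine ⟨(9 * K ^ 2)⁻¹, 9 * K ^ 2, by positivity, by positivity, fun x v => ⟨?_, ?_⟩⟩
  · rw [ip_gOf, inv_mul_le_iff₀ (by positivity)]
    have h3 := lin_bd (fun a i => A x a i) (hK2 x) (fun a => ∑ j, θ x j a * v j)
    refine le_trans (le_of_eq ?_) h3
    have h4 : θ x * A x = 1 := mul_eq_one_comm.mp (hF.inv x)
    refine Finset.sum_congr rfl fun i _ => ?_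
    have h5 : ∑ a, A x a i * ∑ j, θ x j a * v j = v i := by
      have h6 : ∑ a, A x a i * ∑ j, θ x j a * v j = ∑ j, (θ x * A x) j i * v j := by
        simp only [Matrix.mul_apply, Fin.sum_univ_three]
        ring
      rw [h6, h4]
      simp [Matrix.one_apply]
    rw [h5]
  · rw [ip_gOf]
    exact lin_bd (fun i a => θ x i a) (hK1 x) v

theorem frm_of {I : Set ℝ} {A θ : ℝ → MF} (h : FFlow I A θ) {t : ℝ} (ht : t ∈ I) : Frm (A t) (θ t) :=
  ⟨h.inv t ht, fun a i => (h.flA a i).fam.sm t ht, fun i a => (h.flt i a).fam.sm t ht⟩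

/-- monotonicity of the volume: integral of a pointwise inequality off `0` -/
theorem ball_mono {f g : HH → ℝ} (hf : MeasureTheory.IntegrableOn f (Metric.ball (0 : HH) 1))
    (hg : MeasureTheory.IntegrableOn g (Metric.ball (0 : HH) 1)) (h : ∀ x, x ≠ 0 → f x ≤ g x) :
    ∫ x in Metric.ball (0 : HH) 1, f x ≤ ∫ x in Metric.ball (0 : HH) 1, g x := by
  apply MeasureTheory.integral_mono_ae hf hg
  have h2 : ∀ᵐ x : HH ∂(MeasureTheory.volume.restrict (Metric.ball (0 : HH) 1)), x ≠ 0 := by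
    apply MeasureTheory.ae_restrict_of_ae
    exact MeasureTheory.Measure.ae_ne MeasureTheory.volume 0
  filter_upwards [h2] with x hx
  exact h x hx

theorem vlb (frn : FrnStmt) (det : DetStmt) (veq : VeqStmt) (sca : ScaStmt)
    (ffg : Pool.Agent.Helper64.RF.FFG) (c4 : Goal_C4) (c6 : Goal_C6) : VlbStmt := by
  intro T κ τ A θ hκ hF hL hs
  obtain ⟨hτ0, hτT⟩ := hL.pos
  have hI : ∀ t, 0 ≤ t → t < T → t ∈ Set.Ico (0:ℝ) T := fun t h h' => ⟨h, h'⟩
  have hfr : ∀ t, 0 ≤ t → t < T → Frm (A t) (θ t) := fun t h h' => frm_of hF (hI t h h')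
  have hD : 0 < T - τ := by linarith
  have hint : ∀ t, 0 ≤ t → t < T →
      MeasureTheory.IntegrableOn (fun x => Real.sqrt (gOf (θ t) x).det) (Metric.ball (0 : HH) 1) := by
    intro t h h'
    exact c4.2.1 _ (c6 _ (frn _ _ (hfr t h h')).1).2.2.1
  -- the metric at time `τ`
  obtain ⟨c1, C1, hc1, hC1, hb⟩ := bounds c4 (hfr τ hτ0.le hτT)
  have hp : 0 < 3 * κ ^ 2 / 2 := by positivity
  obtain ⟨η, hη, hffg⟩ := ffg (Real.exp (-(3000 / (3 * κ ^ 2))) * (c1 / (4 * (T - τ))))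
    (Real.exp (3000 / (3 * κ ^ 2)) * (C1 / (4 * (T - τ)))) (by positivity) (by positivity)
  -- choice of the time
  obtain ⟨t, hτt, htT, hz⟩ : ∃ t, τ ≤ t ∧ t < T ∧
      (4 + 4400 / 3) * (2 * (T - t) / τ) ^ (3 * κ ^ 2 / 2) ≤ η := by
    have hη' : 0 < η / (4 + 4400 / 3) := by positivity
    have h1 : 0 < min (2 * (T - τ) / τ) ((η / (4 + 4400 / 3)) ^ (3 * κ ^ 2 / 2)⁻¹) := by
      apply lt_min
      · positivity
      · exact Real.rpow_pos_of_pos hη' _
    obtain ⟨ζ, hζ⟩ : ∃ ζ, ζ = min (2 * (T - τ) / τ) ((η / (4 + 4400 / 3)) ^ (3 * κ ^ 2 / 2)⁻¹) := ⟨_, rfl⟩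
    rw [← hζ] at h1
    have h2 : ζ ≤ 2 * (T - τ) / τ := by rw [hζ]; exact min_le_left _ _
    have h3 : ζ ≤ (η / (4 + 4400 / 3)) ^ (3 * κ ^ 2 / 2)⁻¹ := by rw [hζ]; exact min_le_right _ _
    refine ⟨T - ζ * τ / 2, ?_, ?_, ?_⟩
    · rw [le_div_iff₀ hτ0] at h2
      linarith
    · have : 0 < ζ * τ / 2 := by positivity
      linarith
    · have h4 : 2 * (T - (T - ζ * τ / 2)) / τ = ζ := by
        field_simp
        ring
      rw [h4]
      have h5 : ζ ^ (3 * κ ^ 2 / 2) ≤ η / (4 + 4400 / 3) := by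
        calc ζ ^ (3 * κ ^ 2 / 2) ≤ ((η / (4 + 4400 / 3)) ^ (3 * κ ^ 2 / 2)⁻¹) ^ (3 * κ ^ 2 / 2) :=
              Real.rpow_le_rpow h1.le h3 hp.le
          _ = η / (4 + 4400 / 3) := Real.rpow_inv_rpow hη'.le hp.ne'
      calc (4 + 4400 / 3) * ζ ^ (3 * κ ^ 2 / 2) ≤ (4 + 4400 / 3) * (η / (4 + 4400 / 3)) :=
            mul_le_mul_of_nonneg_left h5 (by norm_num)
        _ = η := by field_simp
  have ht0 : 0 ≤ t := hτ0.le.trans hτt
  have hTt : 0 < T - t := by linarith
  have hft := hfr t ht0 htT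
  obtain ⟨hmet, -, -, hsym, hcurv, -, horth, -⟩ := frn _ _ hft
  have hc : 0 < 1 / (4 * (T - t)) := by positivity
  obtain ⟨hm, hfrn, hvol⟩ := sca (gOf (θ t)) (1 / (4 * (T - t))) hmet hc
  have hV := veq T κ τ A θ hκ hF hL t hτt htT
  have hip : ∀ (x : HH) (v : Fin 3 → ℝ), ip (fun x => (1 / (4 * (T - t))) • gOf (θ t) x) x v v =
      ip (gOf (θ t)) x v v / (4 * (T - t)) := by
    intro x v
    simp only [ip, Matrix.smul_apply, smul_eq_mul, Fin.sum_univ_three]
    ring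
  have hkey := hffg (fun x => (1 / (4 * (T - t))) • gOf (θ t) x) hm
    (by
      intro x hx v
      rw [hip]
      obtain ⟨h1, h2⟩ := (hV x hx).2 v
      obtain ⟨h3, h4⟩ := hb x v
      constructor
      · refine le_trans ?_ h1
        rw [mul_assoc]
        apply mul_le_mul_of_nonneg_left _ (Real.exp_pos _).le
        rw [div_mul_eq_mul_div]
        exact div_le_div_of_nonneg_right h3 (by positivity)
      · refine h2.trans ?_
        rw [mul_assoc]
        apply mul_le_mul_of_nonneg_left _ (Real.exp_pos _).le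
        rw [div_mul_eq_mul_div]
        exact div_le_div_of_nonneg_right h4 (by positivity))
    (by
      intro x hx
      refine ⟨_, _, hfrn x hx (A t x) (Nc (A t) (θ t) x) ⟨?_, hsym x hx, ?_⟩, ?_⟩
      · exact horth x
      · intro c d b f
        have h1 := hcurv x hx c d b f
        simp only [eps_eq] at h1
        exact h1
      · intro i j
        obtain ⟨h1, h2⟩ := hL.aft t hτt htT x hx
        have h2' := h2 i j
        obtain ⟨Z, hZ⟩ : ∃ Z, Z = (2 * (T - t) / τ) ^ (3 * κ ^ 2 / 2) := ⟨_, rfl⟩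
        rw [← hZ] at h1 h2' hz
        generalize sC (A t) (θ t) x = s at h1 h2'
        generalize Nc (A t) (θ t) x i j = n at h2' ⊢
        have hZ0 : 0 ≤ Z := by
          rw [hZ]
          apply Real.rpow_nonneg
          positivity
        rw [abs_le] at h1 h2'
        rw [le_div_iff₀ hTt] at h1 h2'
        have h1a := h1.1
        have h2a := h2'.1
        have e1 : (s - 3 / (4 * (T - t))) * (T - t) = s * (T - t) - 3 / 4 := by field_simp
        rw [e1] at h1
        have h1b : -(1100 * Z) ≤ s * (T - t) - 3 / 4 := by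
          have h3 := mul_le_mul_of_nonneg_right h1a hTt.le
          rw [e1] at h3
          have h4 : -(1100 * Z / (T - t)) * (T - t) = -(1100 * Z) := by field_simp
          linarith
        refine le_trans ?_ hz
        have e2 : n / (1 / (4 * (T - t))) = 4 * ((T - t) * n) := by
          field_simp
        rw [e2]
        by_cases hij : i = j
        · simp only [hij, if_true] at h2' h2a ⊢
          have h2b : -Z ≤ (n - s / 3) * (T - t) := by
            have h3 := mul_le_mul_of_nonneg_right h2a hTt.le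
            have h4 : -(Z / (T - t)) * (T - t) = -Z := by field_simp
            linarith
          rw [abs_le]
          constructor <;> nlinarith [h1.2, h2'.2]
        · simp only [hij, if_false] at h2' h2a ⊢
          have h2b : -Z ≤ (n - 0) * (T - t) := by
            have h3 := mul_le_mul_of_nonneg_right h2a hTt.le
            have h4 : -(Z / (T - t)) * (T - t) = -Z := by field_simp
            linarith
          rw [abs_le]
          constructor <;> nlinarith [h1.2, h2'.2])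
  have hvol1 := hkey.1
  rw [hvol] at hvol1
  -- the volume density at times `t` and `τ`
  have hS : 0 < (4 * (T - τ)) * Real.sqrt (4 * (T - τ)) := by positivity
  have hS' : 0 < (4 * (T - t)) * Real.sqrt (4 * (T - t)) := by positivity
  have e3 : 1 / (4 * (T - t)) * Real.sqrt (1 / (4 * (T - t))) = ((4 * (T - t)) * Real.sqrt (4 * (T - t)))⁻¹ := by
    rw [one_div, Real.sqrt_inv, ← mul_inv]
  have h1 : ∫ x in Metric.ball (0 : HH) 1, Real.sqrt (gOf (θ t) x).det ≤
      ∫ x in Metric.ball (0 : HH) 1, (((4 * (T - t)) * Real.sqrt (4 * (T - t))) *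
        (Real.exp (4400 / (3 * κ ^ 2)) * ((4 * (T - τ)) * Real.sqrt (4 * (T - τ)))⁻¹)) *
          Real.sqrt (gOf (θ τ) x).det := by
    apply ball_mono (hint t ht0 htT) ((hint τ hτ0.le hτT).const_mul _)
    intro x hx
    have h2 := (hV x hx).1
    rw [div_le_iff₀ hS'] at h2
    refine h2.trans (le_of_eq ?_)
    rw [div_eq_mul_inv]
    ring
  rw [MeasureTheory.integral_const_mul] at h1
  have h2 : ∫ x in Metric.ball (0 : HH) 1, Real.sqrt (gOf (θ τ) x).det ≤
      ∫ x in Metric.ball (0 : HH) 1, Real.sqrt (gOf (θ 0) x).det := by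
    apply ball_mono (hint τ hτ0.le hτT) (hint 0 le_rfl (hτ0.trans hτT))
    intro x hx
    have hder : ∀ r ∈ Set.Icc (0:ℝ) τ, HasDerivWithinAt (fun r => Real.sqrt (gOf (θ r) x).det)
        (-2 * sC (A r) (θ r) x * Real.sqrt (gOf (θ r) x).det) (Set.Ico 0 T) r := by
      intro r hr
      exact (det (Set.Ico 0 T) A θ hF r ⟨hr.1, hr.2.trans_lt hτT⟩ x hx).2
    have hanti : AntitoneOn (fun r => Real.sqrt (gOf (θ r) x).det) (Set.Icc 0 τ) := by
      apply antitoneOn_of_deriv_nonpos (convex_Icc 0 τ)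
      · intro r hr
        exact ((hder r hr).continuousWithinAt).mono (fun y hy => ⟨hy.1, hy.2.trans_lt hτT⟩)
      · intro r hr
        rw [interior_Icc] at hr
        exact ((hder r (Set.Ioo_subset_Icc_self hr)).hasDerivAt
          (Ico_mem_nhds hr.1 (hr.2.trans hτT))).differentiableAt.differentiableWithinAt
      · intro r hr
        rw [interior_Icc] at hr
        rw [((hder r (Set.Ioo_subset_Icc_self hr)).hasDerivAt (Ico_mem_nhds hr.1 (hr.2.trans hτT))).deriv]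
        have h3 := hs r hr.1.le (hr.2.trans hτT) x hx
        have h4 := Real.sqrt_nonneg (gOf (θ r) x).det
        have h5 := mul_nonneg h3 h4
        linarith
    exact hanti ⟨le_rfl, hτ0.le⟩ ⟨hτ0.le, le_rfl⟩ hτ0.le
  unfold gvol at hvol1 ⊢
  rw [e3] at hvol1
  have hX := Real.exp_pos (4400 / (3 * κ ^ 2))
  rw [Real.exp_neg]
  have h3 : ((4 * (T - t)) * Real.sqrt (4 * (T - t)))⁻¹ * (4 * ∫ x in Metric.ball (0 : HH) 1,
      Real.sqrt (gOf (θ t) x).det) ≤ Real.exp (4400 / (3 * κ ^ 2)) *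
        ((4 * (T - τ)) * Real.sqrt (4 * (T - τ)))⁻¹ * (4 * ∫ x in Metric.ball (0 : HH) 1,
      Real.sqrt (gOf (θ τ) x).det) := by
    rw [inv_mul_le_iff₀ hS']
    refine (mul_le_mul_of_nonneg_left h1 (by norm_num : (0:ℝ) ≤ 4)).trans (le_of_eq ?_)
    ring
  have h4 : Real.exp (4400 / (3 * κ ^ 2)) *
        ((4 * (T - τ)) * Real.sqrt (4 * (T - τ)))⁻¹ * (4 * ∫ x in Metric.ball (0 : HH) 1,
      Real.sqrt (gOf (θ τ) x).det) ≤ Real.exp (4400 / (3 * κ ^ 2)) *
        ((4 * (T - τ)) * Real.sqrt (4 * (T - τ)))⁻¹ * (4 * ∫ x in Metric.ball (0 : HH) 1,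
      Real.sqrt (gOf (θ 0) x).det) := by
    apply mul_le_mul_of_nonneg_left _ (by positivity)
    linarith
  have h5 := hvol1.trans (h3.trans h4)
  calc (4 * (T - τ)) * Real.sqrt (4 * (T - τ)) * (Real.exp (4400 / (3 * κ ^ 2)))⁻¹
        * (MeasureTheory.volume (Metric.ball (0 : HH) 1)).toReal
      ≤ (4 * (T - τ)) * Real.sqrt (4 * (T - τ)) * (Real.exp (4400 / (3 * κ ^ 2)))⁻¹ *
        (Real.exp (4400 / (3 * κ ^ 2)) * ((4 * (T - τ)) * Real.sqrt (4 * (T - τ)))⁻¹ *
          (4 * ∫ x in Metric.ball (0 : HH) 1, Real.sqrt (gOf (θ 0) x).det)) :=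
        mul_le_mul_of_nonneg_left h5 (by positivity)
    _ = 4 * ∫ x in Metric.ball (0 : HH) 1, Real.sqrt (gOf (θ 0) x).det := by
        generalize (4 * (T - τ)) * Real.sqrt (4 * (T - τ)) = S at hS
        field_simp

end Pool.Agent.Helper8.RF
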